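import Pool.Agent.H675R3.Comm

/-!
# The residual finiteness growth of finitely generated nilpotent groups

For every infinite finitely generated nilpotent group `G` (torsion allowed) the residual finiteness
growth of `G` is `(log n) ^ δ` up to constants, where `δ` is read off from the complexification of the
rational Malcev Lie algebra of `G` modulo torsion: `δ` is the least `k` such that the Lie ideals of
codimension at most `k` intersect trivially.

Hence the growth functions of two such groups are equivalent if and only if the two numbers `δ` agree;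
in particular this holds if the groups have isomorphic complex (or real) Malcev completions, and if
they are commensurable up to finite kernels.
-/

set_option autoImplicit false

namespace Pool.Agent.Results.MP_f60e8a_al.GrowthFormula

open scoped TensorProduct

attribute [local instance 100] LieRing.ofAssociativeRing

section defs
variable {G : Type} [Group G]

/-- The word length of `g` with respect to `S`: the least length of a product of elements of `S`
and inverses of elements of `S` which is equal to `g`. -/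
noncomputable def wordLen (S : Set G) (g : G) : ℕ :=
  sInf {m | ∃ l : List G, l.length = m ∧ (∀ x ∈ l, x ∈ S ∨ x⁻¹ ∈ S) ∧ l.prod = g}

/-- `D_G(g)`, the least index of a finite index normal subgroup not containing `g`. -/
noncomputable def depth (g : G) : ℕ :=
  sInf {m | ∃ N : Subgroup G, N.Normal ∧ N.FiniteIndex ∧ g ∉ N ∧ N.index = m}

/-- The residual finiteness growth: `RF_G(n)` is the maximum of `D_G(g)` over the `g ≠ 1` of word
length at most `n`. -/
noncomputable def RF (S : Set G) (n : ℕ) : ℕ :=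
  sSup {m | ∃ g : G, g ≠ 1 ∧ wordLen S g ≤ n ∧ depth g = m}

/-- Elements of finite order. -/
def IsTor (g : G) : Prop := ∃ m : ℕ, 0 < m ∧ g ^ m = 1

end defs

/-- `f ≼ h`: there is `C > 0` with `f n ≤ C * h (C * n)` for all `n`. -/
def Dominated (f h : ℕ → ℕ) : Prop := ∃ C : ℕ, 0 < C ∧ ∀ n, f n ≤ C * h (C * n)

/-- `f ≈ h`. -/
def Equivalent (f h : ℕ → ℕ) : Prop := Dominated f h ∧ Dominated h f

/-- Upper unitriangular rational matrices. -/
def IsUnitri {n : ℕ} (A : Matrix (Fin n) (Fin n) ℚ) : Prop :=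
  (∀ i, A i i = 1) ∧ ∀ i j, j < i → A i j = 0

/-- The logarithm of a unitriangular matrix, a finite sum. -/
noncomputable def matLog {n : ℕ} (A : Matrix (Fin n) (Fin n) ℚ) : Matrix (Fin n) (Fin n) ℚ :=
  ∑ m ∈ Finset.range n, ((-1 : ℚ) ^ m / (m + 1)) • (A - 1) ^ (m + 1)

/-- The rational Lie algebra generated by the logarithms of the matrices in the image of `ρ`. -/
noncomputable def malcevLie {n : ℕ} {G : Type} [Group G] (ρ : G →* Matrix (Fin n) (Fin n) ℚ) :
    LieSubalgebra ℚ (Matrix (Fin n) (Fin n) ℚ) :=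
  LieSubalgebra.lieSpan ℚ (Matrix (Fin n) (Fin n) ℚ) (Set.range fun g => matLog (ρ g))

/-- `L` is the rational Malcev Lie algebra of the quotient of `G` by its torsion subgroup: there is
a representation of `G` by rational unitriangular matrices whose kernel is the set of elements of
finite order, such that `L` is isomorphic to the rational Lie algebra generated by the logarithms of
the elements of the image. -/
def IsMalcevLie (G : Type) [Group G] (L : Type) [LieRing L] [LieAlgebra ℚ L] : Prop :=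
  ∃ (n : ℕ) (ρ : G →* Matrix (Fin n) (Fin n) ℚ), (∀ g, IsUnitri (ρ g)) ∧
    (∀ g, ρ g = 1 ↔ IsTor g) ∧ Nonempty (L ≃ₗ⁅ℚ⁆ malcevLie ρ)

/-- The Lie ideals of `M` of codimension at most `k` intersect in zero. -/
def IdealsSeparate (M : Type) [LieRing M] [LieAlgebra ℂ M] (k : ℕ) : Prop :=
  ∀ x : M, (∀ I : LieIdeal ℂ M, Module.finrank ℂ (M ⧸ I.toSubmodule) ≤ k → x ∈ I) → x = 0

/-- The least `k` such that the Lie ideals of `M` of codimension at most `k` intersect in zero. -/
noncomputable def delta (M : Type) [LieRing M] [LieAlgebra ℂ M] : ℕ := sInf {k | IdealsSeparate M k}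

/-- Commensurability up to finite kernels: finite index subgroups of `G₁` and of `G₂` have a common
quotient by finite normal subgroups. -/
def CommFin (G₁ G₂ : Type) [Group G₁] [Group G₂] : Prop :=
  ∃ (H₁ : Subgroup G₁) (H₂ : Subgroup G₂) (P : Type) (_ : Group P) (f₁ : H₁ →* P) (f₂ : H₂ →* P),
    H₁.FiniteIndex ∧ H₂.FiniteIndex ∧ Function.Surjective f₁ ∧ Function.Surjective f₂ ∧
    Finite f₁.ker ∧ Finite f₂.ker

theorem result :
    -- every finitely generated nilpotent group has a Malcev Lie algebra, unique up to isomorphism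
    (∀ (G : Type) [Group G], Group.FG G → Group.IsNilpotent G →
      ∃ (L : Type) (_ : LieRing L) (_ : LieAlgebra ℚ L), IsMalcevLie G L ∧
        ∀ (L' : Type) [LieRing L'] [LieAlgebra ℚ L'], IsMalcevLie G L' → Nonempty (L ≃ₗ⁅ℚ⁆ L')) ∧
    -- the growth is `(log n) ^ δ` up to constants
    (∀ (G : Type) [Group G], Group.FG G → Group.IsNilpotent G → Infinite G →
      ∀ (L : Type) [LieRing L] [LieAlgebra ℚ L], IsMalcevLie G L →
      ∀ S : Set G, S.Finite → Subgroup.closure S = ⊤ → 1 ≤ delta (ℂ ⊗[ℚ] L) ∧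
        ∃ C : ℝ, 0 < C ∧ ∀ n : ℕ, 2 ≤ n →
          (Real.log n) ^ delta (ℂ ⊗[ℚ] L) ≤ C * RF S n ∧
          (RF S n : ℝ) ≤ C * (Real.log n) ^ delta (ℂ ⊗[ℚ] L)) ∧
    -- comparison of two groups
    (∀ (G₁ G₂ : Type) [Group G₁] [Group G₂], Group.FG G₁ → Group.IsNilpotent G₁ → Infinite G₁ →
      Group.FG G₂ → Group.IsNilpotent G₂ → Infinite G₂ →
      ∀ (L₁ L₂ : Type) [LieRing L₁] [LieAlgebra ℚ L₁] [LieRing L₂] [LieAlgebra ℚ L₂],
      IsMalcevLie G₁ L₁ → IsMalcevLie G₂ L₂ →
      ∀ (S₁ : Set G₁) (S₂ : Set G₂), S₁.Finite → Subgroup.closure S₁ = ⊤ →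
        S₂.Finite → Subgroup.closure S₂ = ⊤ →
        (Equivalent (RF S₁) (RF S₂) ↔ delta (ℂ ⊗[ℚ] L₁) = delta (ℂ ⊗[ℚ] L₂)) ∧
        (Nonempty ((ℂ ⊗[ℚ] L₁) ≃ₗ⁅ℂ⁆ (ℂ ⊗[ℚ] L₂)) → Equivalent (RF S₁) (RF S₂)) ∧
        (CommFin G₁ G₂ → Equivalent (RF S₁) (RF S₂))) := by
  refine ⟨fun G _ hfg hnil => ?_, fun G _ hfg hnil hinf L _ _ hL S hS hgen => ?_, ?_⟩
  · obtain ⟨L, i1, i2, h⟩ := Pool.Agent.H675R3.isMal_exists G hfg hnil
    exact ⟨L, i1, i2, h, fun L' _ _ h' => Pool.Agent.H675R3.IsMal.unique h h'⟩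
  · obtain ⟨h1, h2, h3⟩ := Pool.Agent.H675R3.growth hfg hnil hinf hL hS hgen
    exact ⟨h1, Pool.Agent.H675R3.GB.explicit hgen h2 h3⟩
  · intro G₁ G₂ _ _ hfg₁ hnil₁ hinf₁ hfg₂ hnil₂ hinf₂ L₁ L₂ _ _ _ _ hL₁ hL₂ S₁ S₂ hS₁ hgen₁ hS₂ hgen₂
    obtain ⟨a1, a2, a3⟩ := Pool.Agent.H675R3.growth hfg₁ hnil₁ hinf₁ hL₁ hS₁ hgen₁
    obtain ⟨b1, b2, b3⟩ := Pool.Agent.H675R3.growth hfg₂ hnil₂ hinf₂ hL₂ hS₂ hgen₂
    have h := Pool.Agent.H675R3.equiv_iff_of_GB hgen₁ hgen₂ a2 b2 a3 b3
    refine ⟨h, ?_, fun hc => ?_⟩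
    · rintro ⟨e⟩
      exact h.mpr (Pool.Agent.H675R3.delta_congr e)
    · have hL₂' := Pool.Agent.H675R3.CommFin.isMal hc hL₁ hL₂
      obtain ⟨c1, c2, c3⟩ := Pool.Agent.H675R3.growth hfg₂ hnil₂ hinf₂ hL₂' hS₂ hgen₂
      exact (Pool.Agent.H675R3.equiv_iff_of_GB hgen₁ hgen₂ a2 c2 a3 c3).mpr rfl

end Pool.Agent.Results.MP_f60e8a_al.GrowthFormula
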